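import Pool.Agent.helper92.VC.Spec

/-! MP_dc9173_lc, row vc:COE (helper38): coefficients of products of matrices of univariate
polynomials in distinct variables. -/

set_option autoImplicit false

universe u

namespace Pool.Agent.helper92.VC

open MvPolynomial

theorem COE_mul {n : ℕ} {K : Type u} [Field K] (x : Fin n) (Q : MvPolynomial (Fin n) K)
    (hQ : ∀ e : Fin n →₀ ℕ, e x ≠ 0 → coeff e Q = 0) (p : Polynomial K) (e : Fin n →₀ ℕ) :
    coeff e (Polynomial.aeval (X x : MvPolynomial (Fin n) K) p * Q) =
      p.coeff (e x) * coeff (e.erase x) Q := by
  induction p using Polynomial.induction_on' with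
  | add p q hp hq => rw [map_add, add_mul, coeff_add, hp, hq, Polynomial.coeff_add, add_mul]
  | monomial i c =>
    have h1 : Polynomial.aeval (X x : MvPolynomial (Fin n) K) (Polynomial.monomial i c) =
        monomial (Finsupp.single x i) c := by
      rw [Polynomial.aeval_monomial, MvPolynomial.algebraMap_eq, MvPolynomial.X_pow_eq_monomial,
        MvPolynomial.C_mul_monomial, mul_one]
    rw [h1, MvPolynomial.coeff_monomial_mul', Polynomial.coeff_monomial]
    by_cases h2 : Finsupp.single x i ≤ e
    · rw [if_pos h2]
      have h3 : i ≤ e x := by
        have := h2 x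
        simpa using this
      by_cases h4 : i = e x
      · rw [if_pos h4]
        congr 2
        ext y
        by_cases h5 : y = x
        · subst h5
          simp [h4]
        · simp [Finsupp.erase_ne h5, Finsupp.single_apply, Ne.symm h5]
      · rw [if_neg h4, zero_mul]
        rw [hQ, mul_zero]
        simp only [Finsupp.coe_tsub, Pi.sub_apply, Finsupp.single_eq_same]
        omega
    · rw [if_neg h2]
      have h3 : ¬ i = e x := by
        intro h4
        apply h2
        intro y
        by_cases h5 : y = x
        · subst h5
          simp [h4]
        · simp [Finsupp.single_apply, Ne.symm h5]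
      rw [if_neg h3, zero_mul]

theorem COE : COE_stmt.{u} := by
  classical
  intro n K _ w M l
  induction l with
  | nil =>
    intro _ a b e
    simp only [List.map_nil, List.prod_nil]
    by_cases h : a = b
    · subst h
      rw [Matrix.one_apply_eq, Matrix.one_apply_eq, MvPolynomial.coeff_one]
      by_cases h0 : (0 : Fin n →₀ ℕ) = e
      · rw [if_pos h0, if_pos]
        intro y _
        rw [← h0]
        rfl
      · rw [if_neg h0, if_neg]
        intro h1
        apply h0
        ext y
        simp [h1 y (by simp)]
    · rw [Matrix.one_apply_ne h, Matrix.one_apply_ne h]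
      simp
  | cons x s ih =>
    intro hnd a b e
    have hxs : x ∉ s := (List.nodup_cons.1 hnd).1
    have ih' := ih (List.nodup_cons.1 hnd).2
    rw [List.map_cons, List.prod_cons, Matrix.mul_apply, MvPolynomial.coeff_sum]
    have h1 : ∀ c : Fin w, coeff e (((M x).map fun p =>
        Polynomial.aeval (X x : MvPolynomial (Fin n) K) p) a c *
        (s.map fun x => (M x).map fun p =>
          Polynomial.aeval (X x : MvPolynomial (Fin n) K) p).prod c b) =
        (M x a c).coeff (e x) * coeff (e.erase x) ((s.map fun x => (M x).map fun p =>
          Polynomial.aeval (X x : MvPolynomial (Fin n) K) p).prod c b) := by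
      intro c
      rw [Matrix.map_apply]
      apply COE_mul
      intro e' he'
      rw [ih' c b e', if_neg]
      intro h2
      exact he' (h2 x hxs)
    rw [Finset.sum_congr rfl (fun c _ => h1 c)]
    have h3 : (∀ y, y ∉ s → (e.erase x) y = 0) ↔ (∀ y, y ∉ x :: s → e y = 0) := by
      constructor
      · intro h y hy
        have hyx : y ≠ x := by
          rintro rfl
          exact hy List.mem_cons_self
        have := h y (fun h' => hy (List.mem_cons_of_mem _ h'))
        rwa [Finsupp.erase_ne hyx] at this
      · intro h y hy
        by_cases hyx : y = x
        · subst hyx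
          exact Finsupp.erase_same
        · rw [Finsupp.erase_ne hyx]
          apply h
          rw [List.mem_cons]
          push Not
          exact ⟨hyx, hy⟩
    have h4 : (s.map fun y => (M y).map fun p => p.coeff ((e.erase x) y)) =
        (s.map fun y => (M y).map fun p => p.coeff (e y)) := by
      apply List.map_congr_left
      intro y hy
      have hyx : y ≠ x := by
        rintro rfl
        exact hxs hy
      rw [Finsupp.erase_ne hyx]
    by_cases hc : ∀ y, y ∉ x :: s → e y = 0
    · rw [if_pos hc, List.map_cons, List.prod_cons, Matrix.mul_apply]
      refine Finset.sum_congr rfl fun c _ => ?_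
      rw [ih' c b (e.erase x), if_pos (h3.2 hc), h4, Matrix.map_apply]
    · rw [if_neg hc]
      refine Finset.sum_eq_zero fun c _ => ?_
      rw [ih' c b (e.erase x), if_neg (fun h => hc (h3.1 h)), mul_zero]

end Pool.Agent.helper92.VC
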